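import Pool.Agent.X55.Fam.LinCor

/-!
# Almost prime pairs between consecutive squares with fixed sum and with prescribed digital functions

Let `S` be a strongly `b`-additive function with values in a finite abelian group `G` (for example the sum of the
digits in base `b`, or any vector of numbers of occurrences of nonzero digits, modulo some integers), which is not
degenerate: no nontrivial character of the group makes it a function of the residue of `n` modulo `b - 1`. For all large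
`N`, and all `g` in `G`, we consider the `k` with `2 ≤ k ≤ 2 N` for which `S (N ^ 2 + k + 1) = g`.
* The number of those for which `N ^ 2 + k + 1` and `(N + 1) ^ 2 - k` have a bounded number of prime factors, all
  greater than `N ^ δ`, has the expected order of magnitude, the product of `N` and of the local factors
  `1 - ν(q) / q` over the primes `q ≤ N`.
* The number of those for which both are primes is at most of this order.
* The number of those for which neither has a prime factor up to `y` is given by an asymptotic formula.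

The proof combines a sieve which is uniform in the removed residue classes and the exponential sums of digital
functions (in the starting files), over the blocks of a short interval.
-/

set_option autoImplicit false

namespace Pool.Agent.Results.MP_e94e4b_nt.DigitalFunctions

open Finset

/-- `S` is strongly `b`-additive (`S (b n + d) = S n + S d` for the digits `d < b`), and no nontrivial character of the
group maps `S n`, for all digits `n`, to the powers `z ^ n` of a number `z` with `z ^ (b - 1) = 1` -/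
def Digital {G : Type} [AddCommGroup G] (b : ℕ) (S : ℕ → G) : Prop :=
  (∀ n d : ℕ, d < b → S (b * n + d) = S n + S d) ∧
  ∀ χ : AddChar G ℂ, χ ≠ 0 → ¬ (χ (S 1) ^ (b - 1) = 1 ∧ ∀ d < b, χ (S d) = χ (S 1) ^ d)

/-- `m ≠ 0` has at most `r` prime factors, counted with multiplicity, all of them greater than `x`. -/
def AlmostPrime (r : ℕ) (x : ℝ) (m : ℕ) : Prop :=
  m ≠ 0 ∧ m.primeFactorsList.length ≤ r ∧ ∀ q : ℕ, q.Prime → q ∣ m → x < q

/-- the number of the `k` with `S (N ^ 2 + k + 1) = g` for which both numbers are almost primes -/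
noncomputable def almost {G : Type} (S : ℕ → G) (g : G) (N r : ℕ) (x : ℝ) : ℕ :=
  Set.ncard {k : ℕ | 2 ≤ k ∧ k ≤ 2 * N ∧ S (N ^ 2 + k + 1) = g ∧
    AlmostPrime r x (N ^ 2 + k + 1) ∧ AlmostPrime r x ((N + 1) ^ 2 - k)}

/-- the number of the `k` with `S (N ^ 2 + k + 1) = g` for which both numbers are primes -/
noncomputable def primes {G : Type} (S : ℕ → G) (g : G) (N : ℕ) : ℕ :=
  Set.ncard {k : ℕ | 2 ≤ k ∧ k ≤ 2 * N ∧ S (N ^ 2 + k + 1) = g ∧ (N ^ 2 + k + 1).Prime ∧ ((N + 1) ^ 2 - k).Prime}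

/-- the number of the `k` with `S (N ^ 2 + k + 1) = g` for which neither number has a prime factor up to `y` -/
noncomputable def rough {G : Type} (S : ℕ → G) (g : G) (N y : ℕ) : ℕ :=
  Set.ncard {k : ℕ | 2 ≤ k ∧ k ≤ 2 * N ∧ S (N ^ 2 + k + 1) = g ∧
    ∀ q : ℕ, q.Prime → q ≤ y → ¬ q ∣ N ^ 2 + k + 1 ∧ ¬ q ∣ (N + 1) ^ 2 - k}

/-- the product over the primes `q ≤ y` of `1 - ν(q) / q`, where `ν(q)` is the number of the residues `a` modulo `q`
with `a = 0` or `a = 2 N ^ 2 + 2 N + 2` (the sum of the two numbers) modulo `q` -/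
noncomputable def V (N y : ℕ) : ℝ :=
  ∏ q ∈ (Icc 1 y).filter Nat.Prime,
    (1 - (Set.ncard {a : ℕ | a < q ∧ (q ∣ a ∨ a ≡ 2 * N ^ 2 + 2 * N + 2 [MOD q])} : ℝ) / q)

/-- the coefficients of the two forms -/
def ca : Fin 2 → ℤ := ![1, -1]

/-- the constants of the two forms -/
def cb (N : ℕ) : Fin 2 → ℤ := ![0, (N : ℤ)]

lemma ca_ne (i : Fin 2) : ca i ≠ 0 := by
  fin_cases i <;> simp [ca]

lemma v1 (n : ℕ) : (1 * (n : ℤ) + 0).natAbs = n := by simp

lemma v2 {N n : ℕ} (h : n ≤ N) : (-1 * (n : ℤ) + (N : ℤ)).natAbs = N - n := by omega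

lemma V_eq (N y : ℕ) : Pool.Agent.X55.Fam.VL ca (cb (2 * N ^ 2 + 2 * N + 2)) y = V N y := by
  unfold Pool.Agent.X55.Fam.VL V
  refine prod_congr rfl fun q _ => ?_
  congr 4
  ext n
  set T := 2 * N ^ 2 + 2 * N + 2 with hT
  have h1 : (∃ i, (q : ℤ) ∣ ca i * (n : ℤ) + cb T i) ↔ (q ∣ n ∨ n ≡ T [MOD q]) := by
    rw [Nat.modEq_iff_dvd]
    constructor
    · rintro ⟨i, hi⟩
      fin_cases i
      · left
        have h2 : (q : ℤ) ∣ 1 * (n : ℤ) + 0 := hi
        rw [one_mul, add_zero] at h2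
        exact_mod_cast h2
      · right
        have h2 : (q : ℤ) ∣ -1 * (n : ℤ) + (T : ℤ) := hi
        have h3 : (T : ℤ) - n = -1 * (n : ℤ) + (T : ℤ) := by ring
        rw [h3]
        exact h2
    · rintro (h | h)
      · refine ⟨0, ?_⟩
        show (q : ℤ) ∣ 1 * (n : ℤ) + 0
        rw [one_mul, add_zero]
        exact_mod_cast h
      · refine ⟨1, ?_⟩
        show (q : ℤ) ∣ -1 * (n : ℤ) + (T : ℤ)
        have h3 : -1 * (n : ℤ) + (T : ℤ) = (T : ℤ) - n := by ring
        rw [h3]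
        exact h
  show (n < q ∧ _) ↔ (n < q ∧ _)
  rw [h1]

lemma all2 {N n : ℕ} (h : n ≤ N) (Q : ℕ → Prop) :
    (∀ i, Q (ca i * (n : ℤ) + cb N i).natAbs) ↔ (Q n ∧ Q (N - n)) := by
  rw [Fin.forall_fin_two]
  have e1 : (ca 0 * (n : ℤ) + cb N 0).natAbs = n := v1 n
  have e2 : (ca 1 * (n : ℤ) + cb N 1).natAbs = N - n := v2 h
  rw [e1, e2]

lemma adm {N : ℕ} (hN : Even N) (q : ℕ) (hq : q.Prime) : ∃ n : ℕ, ∀ i, ¬ (q : ℤ) ∣ ca i * (n : ℤ) + cb N i := by
  have key : ∃ n : ℕ, ¬ (q : ℤ) ∣ 1 * (n : ℤ) + 0 ∧ ¬ (q : ℤ) ∣ -1 * (n : ℤ) + (N : ℤ) := by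
    have h1 : ¬ (q : ℤ) ∣ 1 := by
      intro h
      have := Int.eq_one_of_dvd_one (by positivity) h
      exact hq.one_lt.ne' (by exact_mod_cast this)
    by_cases h : (q : ℤ) ∣ -1 * ((1 : ℕ) : ℤ) + (N : ℤ)
    · refine ⟨2, fun h2 => ?_, fun h2 => ?_⟩
      · have h3 : (q : ℤ) ∣ 2 := by simpa using h2
        have h4 : q ∣ 2 := by exact_mod_cast h3
        have h5 : q = 2 := (Nat.prime_dvd_prime_iff_eq hq Nat.prime_two).1 h4
        subst h5
        obtain ⟨t, ht⟩ := hN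
        push_cast at h
        omega
      · apply h1
        have := dvd_sub h h2
        push_cast at this
        ring_nf at this
        simpa using this
    · refine ⟨1, fun h2 => h1 ?_, h⟩
      simpa using h2
  obtain ⟨n, h1, h2⟩ := key
  refine ⟨n, fun i => ?_⟩
  fin_cases i
  · exact h1
  · exact h2

/-- the translation by `N ^ 2 + 1` -/
lemma shift (N : ℕ) (hN : 1 ≤ N) (Q : ℕ → ℕ → Prop) :
    Set.ncard {k : ℕ | 2 ≤ k ∧ k ≤ 2 * N ∧ Q (N ^ 2 + k + 1) ((N + 1) ^ 2 - k)} =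
      Set.ncard {n : ℕ | N ^ 2 + 2 < n ∧ n ≤ N ^ 2 + 2 + (2 * N - 1) ∧ Q n (2 * N ^ 2 + 2 * N + 2 - n)} := by
  have hinj : Function.Injective (fun k : ℕ => N ^ 2 + k + 1) := fun a b h => by
    have : N ^ 2 + a + 1 = N ^ 2 + b + 1 := h
    omega
  rw [← Set.ncard_image_of_injective _ hinj]
  congr 1
  have hsq : (N + 1) ^ 2 = N ^ 2 + 2 * N + 1 := by ring
  ext n
  constructor
  · rintro ⟨k, ⟨h1, h2, h3⟩, rfl⟩
    have e : 2 * N ^ 2 + 2 * N + 2 - (N ^ 2 + k + 1) = (N + 1) ^ 2 - k := by omega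
    show N ^ 2 + 2 < N ^ 2 + k + 1 ∧ N ^ 2 + k + 1 ≤ N ^ 2 + 2 + (2 * N - 1) ∧ Q (N ^ 2 + k + 1) _
    rw [e]
    exact ⟨by omega, by omega, h3⟩
  · rintro ⟨h1, h2, h3⟩
    refine ⟨n - (N ^ 2 + 1), ⟨by omega, by omega, ?_⟩, ?_⟩
    · have e1 : N ^ 2 + (n - (N ^ 2 + 1)) + 1 = n := by omega
      have e2 : (N + 1) ^ 2 - (n - (N ^ 2 + 1)) = 2 * N ^ 2 + 2 * N + 2 - n := by omega
      rw [e1, e2]
      exact h3
    · show N ^ 2 + (n - (N ^ 2 + 1)) + 1 = n
      omega

theorem result : ∀ (G : Type) [AddCommGroup G] [Fintype G] (b : ℕ) (S : ℕ → G), 2 ≤ b → Digital b S →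
    (∃ (r : ℕ) (δ c C : ℝ) (N₀ : ℕ), 0 < δ ∧ 0 < c ∧ 0 < C ∧ ∀ N : ℕ, N₀ ≤ N → ∀ g : G,
      c * (N * V N N) ≤ almost S g N r ((N : ℝ) ^ δ) ∧ (primes S g N : ℝ) ≤ C * (N * V N N)) ∧
    -- the asymptotic formula
    (∀ η : ℝ, 0 < η → ∃ (δ : ℝ) (N₀ : ℕ), 0 < δ ∧ ∀ N : ℕ, N₀ ≤ N → ∀ (g : G) (y : ℕ), 3 ≤ y → (y : ℝ) ≤ (N : ℝ) ^ δ →
      |(rough S g N y : ℝ) - ((2 * N - 1 : ℕ) : ℝ) / Fintype.card G * V N y| ≤
        η * (((2 * N - 1 : ℕ) : ℝ) / Fintype.card G * V N y)) := by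
  intro G _ _ b S hb hS
  have hG : (1 : ℝ) ≤ Fintype.card G := by
    have : 1 ≤ Fintype.card G := Fintype.card_pos
    exact_mod_cast this
  have hev : ∀ N : ℕ, Even (2 * N ^ 2 + 2 * N + 2) := fun N => ⟨N ^ 2 + N + 1, by ring⟩
  constructor
  · obtain ⟨r, δ, c, C, H₀, hδ, hc, hC, h⟩ := Pool.Agent.X55.Fam.dig_lin b hb S hS.1 hS.2 2 (by norm_num) 4
    obtain ⟨C2, hC2, hrat⟩ := Pool.Agent.X55.Fam.VQ_ratio 2 2 (by norm_num) (by norm_num)
    refine ⟨r, δ, c / (2 * C2 * Fintype.card G), 2 * C, max H₀ 3, hδ, by positivity, by positivity, ?_⟩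
    intro N hN g
    have hN3 : 3 ≤ N := (le_max_right _ _).trans hN
    have hN0 : H₀ ≤ N := (le_max_left _ _).trans hN
    have hNr : (3 : ℝ) ≤ N := by exact_mod_cast hN3
    set T := 2 * N ^ 2 + 2 * N + 2 with hT
    set H := 2 * N - 1 with hH
    have hHN : N ≤ H := by omega
    have hH2 : H ≤ 2 * N := by omega
    have hHr : (N : ℝ) ≤ H := by exact_mod_cast hHN
    have hHr2 : (H : ℝ) ≤ 2 * N := by exact_mod_cast hH2
    obtain ⟨h1, h2⟩ := h H (by omega) ca (cb T) ca_ne (adm (hev N)) (N ^ 2 + 2) g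
    unfold Pool.Agent.X55.Fam.LoT at h1
    unfold Pool.Agent.X55.Fam.UpL at h2
    rw [V_eq] at h1 h2
    have hadm := Pool.Agent.X55.Fam.adm_lin ca (cb T) (adm (hev N))
    have hVmono : V N H ≤ V N N := by
      rw [← V_eq, ← V_eq, Pool.Agent.X55.Fam.VL_eq, Pool.Agent.X55.Fam.VL_eq]
      exact Pool.Agent.X55.Fam.VQ_anti hHN
    have hVrat : V N N ≤ C2 * V N H := by
      rw [← V_eq, ← V_eq, Pool.Agent.X55.Fam.VL_eq, Pool.Agent.X55.Fam.VL_eq]
      exact hrat _ hadm N H hN3 hHN (by nlinarith)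
    have hV0 : 0 ≤ V N H := by
      rw [← V_eq]
      exact Pool.Agent.X55.Fam.VL_nonneg _ _ _
    have hVN0 : 0 ≤ V N N := by
      rw [← V_eq]
      exact Pool.Agent.X55.Fam.VL_nonneg _ _ _
    have hTle : T ≤ H ^ 4 := by
      have h3 : 2 * N ^ 2 + 2 * N + 2 ≤ N ^ 4 := by nlinarith [Nat.mul_le_mul hN3 hN3, Nat.zero_le (N ^ 2)]
      exact h3.trans (Nat.pow_le_pow_left hHN 4)
    constructor
    · have k1 := h1 (by
        have : N ^ 2 + 2 + H ≤ T := by
          rw [hT]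
          omega
        exact this.trans hTle) (fun i => by
        fin_cases i
        · exact Nat.one_le_pow _ _ (by omega)
        · exact Nat.one_le_pow _ _ (by omega)) (fun i => by
        fin_cases i
        · exact Nat.zero_le _
        · exact hTle)
      have s1 : (almost S g N r ((N : ℝ) ^ δ) : ℝ) ≥ (Set.ncard {n : ℕ | N ^ 2 + 2 < n ∧ n ≤ N ^ 2 + 2 + H ∧ S n = g ∧
          ∀ i, Pool.Agent.X55.Fam.Good r ((H : ℝ) ^ δ) (ca i * (n : ℤ) + cb T i).natAbs} : ℝ) := by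
        unfold almost
        rw [shift N (by omega) (fun m m' => S m = g ∧ AlmostPrime r ((N : ℝ) ^ δ) m ∧ AlmostPrime r ((N : ℝ) ^ δ) m')]
        have hsub : {n : ℕ | N ^ 2 + 2 < n ∧ n ≤ N ^ 2 + 2 + H ∧ S n = g ∧
          ∀ i, Pool.Agent.X55.Fam.Good r ((H : ℝ) ^ δ) (ca i * (n : ℤ) + cb T i).natAbs} ⊆
          {n : ℕ | N ^ 2 + 2 < n ∧ n ≤ N ^ 2 + 2 + (2 * N - 1) ∧ (S n = g ∧ AlmostPrime r ((N : ℝ) ^ δ) n ∧
            AlmostPrime r ((N : ℝ) ^ δ) (2 * N ^ 2 + 2 * N + 2 - n))} := by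
          rintro n ⟨g1, g2, g3, g4⟩
          have hnT : n ≤ T := by rw [hT]; omega
          obtain ⟨g5, g6⟩ := (all2 hnT (Pool.Agent.X55.Fam.Good r ((H : ℝ) ^ δ))).1 g4
          have hx : (N : ℝ) ^ δ ≤ (H : ℝ) ^ δ := Real.rpow_le_rpow (by linarith) hHr hδ.le
          exact ⟨g1, g2, g3, ⟨g5.1, g5.2.1, fun q hq hd => lt_of_le_of_lt hx (g5.2.2 q hq hd)⟩,
            ⟨g6.1, g6.2.1, fun q hq hd => lt_of_le_of_lt hx (g6.2.2 q hq hd)⟩⟩
        have hfin : ({n : ℕ | N ^ 2 + 2 < n ∧ n ≤ N ^ 2 + 2 + (2 * N - 1) ∧ (S n = g ∧ AlmostPrime r ((N : ℝ) ^ δ) n ∧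
            AlmostPrime r ((N : ℝ) ^ δ) (2 * N ^ 2 + 2 * N + 2 - n))}).Finite :=
          (Set.finite_le_nat (N ^ 2 + 2 + (2 * N - 1))).subset fun n hn => hn.2.1
        exact_mod_cast Set.ncard_le_ncard hsub hfin
      refine le_trans ?_ (k1.trans s1)
      have e1 : c / (2 * C2 * Fintype.card G) * (N * V N N) ≤ c / (2 * C2 * Fintype.card G) * (H * (C2 * V N H)) := by
        gcongr
      refine e1.trans ?_
      have e2 : c / (2 * C2 * Fintype.card G) * (H * (C2 * V N H)) = (c * (H / Fintype.card G * V N H)) / 2 := by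
        field_simp
      rw [e2]
      have : 0 ≤ c * (H / Fintype.card G * V N H) := by positivity
      linarith
    · have s2 : (primes S g N : ℝ) = (Set.ncard {n : ℕ | N ^ 2 + 2 < n ∧ n ≤ N ^ 2 + 2 + H ∧ S n = g ∧
          ∀ i, (ca i * (n : ℤ) + cb T i).natAbs.Prime} : ℝ) := by
        unfold primes
        rw [shift N (by omega) (fun m m' => S m = g ∧ m.Prime ∧ m'.Prime)]
        congr 2
        ext n
        refine and_congr_right fun _ => and_congr_right fun h3 => and_congr_right fun _ => ?_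
        have hnT : n ≤ T := by
          rw [hT]
          omega
        exact (all2 hnT Nat.Prime).symm
      rw [s2]
      refine h2.trans ?_
      have e1 : H / Fintype.card G * V N H ≤ (2 * N) * V N N := by
        have : (H : ℝ) / Fintype.card G ≤ 2 * N := (div_le_self (by positivity) hG).trans hHr2
        gcongr
      calc C * (H / Fintype.card G * V N H) ≤ C * ((2 * N) * V N N) := by gcongr
        _ = _ := by ring
  · intro η hη
    obtain ⟨δ, H₀, hδ, h⟩ := Pool.Agent.X55.Fam.dig_linA b hb S hS.1 hS.2 2 (by norm_num) η hη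
    refine ⟨δ, max H₀ 3, hδ, ?_⟩
    intro N hN g y hy hyN
    have hN3 : 3 ≤ N := (le_max_right _ _).trans hN
    have hN0 : H₀ ≤ N := (le_max_left _ _).trans hN
    set T := 2 * N ^ 2 + 2 * N + 2 with hT
    set H := 2 * N - 1 with hH
    have hHN : N ≤ H := by omega
    have hHr : (N : ℝ) ≤ H := by exact_mod_cast hHN
    have h1 := h H (by omega) ca (cb T) (adm (hev N)) (N ^ 2 + 2) g y hy
      (hyN.trans (Real.rpow_le_rpow (Nat.cast_nonneg _) hHr hδ.le))
    unfold Pool.Agent.X55.Fam.AsL at h1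
    rw [V_eq] at h1
    have s2 : rough S g N y = Set.ncard {n : ℕ | N ^ 2 + 2 < n ∧ n ≤ N ^ 2 + 2 + H ∧ S n = g ∧
          ∀ q : ℕ, q.Prime → q ≤ y → ∀ i, ¬ (q : ℤ) ∣ ca i * (n : ℤ) + cb T i} := by
      unfold rough
      rw [shift N (by omega) (fun m m' => S m = g ∧ ∀ q : ℕ, q.Prime → q ≤ y → ¬ q ∣ m ∧ ¬ q ∣ m')]
      congr 1
      ext n
      refine and_congr_right fun _ => and_congr_right fun h3 => and_congr_right fun _ => forall_congr' fun q => ?_
      refine imp_congr_right fun _ => imp_congr_right fun _ => ?_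
      have hnT : n ≤ T := by
        rw [hT]
        omega
      rw [← all2 hnT (fun m => ¬ q ∣ m)]
      refine forall_congr' fun i => ?_
      rw [Int.natCast_dvd]
    rw [s2]
    exact h1

end Pool.Agent.Results.MP_e94e4b_nt.DigitalFunctions
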