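import Mathlib
import Pool.Agent.X37.RD.Gold

/-!
# Almost prime pairs `N ^ 2 + k + 1`, `(N + 1) ^ 2 - k` with restricted digits of `k` in a given short interval

Let `N ≤ y ^ E`, `1 ≤ x`, `x + y ≤ 2 N + 1` and `K = log_b (y / 3)`. Among the `k` with `x < k < x + y` (so that
`2 ≤ k ≤ 2 N`) whose last `K` digits in base `b` belong to prescribed sets `A 0, ..., A (K - 1)` there are at least
`κ |A 0| ⋯ |A (K - 1)| S(N) / K ^ 2` for which `N ^ 2 + k + 1` and `(N + 1) ^ 2 - k` have at most `r` prime factors, all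
of them larger than `b ^ (K / r)`, and at most `C |A 0| ⋯ |A (K - 1)| S(N) / K ^ 2` for which both numbers are primes,
`S(N)` being the product of `(p - 1) / (p - 2)` over the primes `p ∣ N ^ 2 + N + 1`. The sets are arbitrary sets of
digits with `|A 0| ⋯ |A (K - 1)| ≥ exp (- c K) b ^ K`.
-/

set_option autoImplicit false

namespace Pool.Agent.Results.MP_e94e4b_nt.RestrictedDigits

open Finset Filter

/-- the product of `(p - 1) / (p - 2)` over the prime divisors of `N ^ 2 + N + 1` (an odd number) -/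
noncomputable def S (N : ℕ) : ℝ := ∏ p ∈ Nat.primeFactors (N ^ 2 + N + 1), ((p : ℝ) - 1) / (p - 2)

/-- `n` has at most `r` prime factors (counted with multiplicity), all of them larger than `z ^ (1 / r)` -/
def AlmostPrime (r z n : ℕ) : Prop := (∀ p : ℕ, p.Prime → p ∣ n → z < p ^ r) ∧ n.primeFactorsList.length ≤ r

/-- the number of the elements of `M` whose `i`-th digit in base `b` belongs to `A i` for all `i < K` -/
noncomputable def count (b K : ℕ) (A : ℕ → Finset ℕ) (M : Set ℕ) : ℕ :=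
  {k : ℕ | k ∈ M ∧ ∀ i < K, k / b ^ i % b ∈ A i}.ncard

/-- the number of choices of the `K` digits -/
def choices (K : ℕ) (A : ℕ → Finset ℕ) : ℕ := ∏ i ∈ range K, (A i).card

theorem result (E : ℕ) :
    ∃ c : ℝ, 0 < c ∧ ∃ r₀ : ℕ, 2 ≤ r₀ ∧ ∀ r : ℕ, r₀ ≤ r → ∀ b : ℕ, 2 ≤ b → ∃ κ C : ℝ, 0 < κ ∧ 0 < C ∧
      ∀ᶠ y : ℕ in atTop, ∀ N x : ℕ, N ≤ y ^ E → 1 ≤ x → x + y ≤ 2 * N + 1 → ∀ K : ℕ, K = Nat.log b (y / 3) →
        ∀ A : ℕ → Finset ℕ, (∀ i < K, A i ⊆ range b) → (b : ℝ) ^ K ≤ Real.exp (c * K) * choices K A →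
        ((∃ d ∈ A 0, (N ^ 2 + d + 1).Coprime b ∧ ((N + 1) ^ 2 - d).Coprime b) →
          κ * choices K A * S N / (K : ℝ) ^ 2 ≤ count b K A {k | (x < k ∧ k < x + y) ∧
            AlmostPrime r (b ^ K) (N ^ 2 + k + 1) ∧ AlmostPrime r (b ^ K) ((N + 1) ^ 2 - k)}) ∧
        (count b K A {k | (x < k ∧ k < x + y) ∧ (N ^ 2 + k + 1).Prime ∧ ((N + 1) ^ 2 - k).Prime} : ℝ) ≤
          C * choices K A * S N / (K : ℝ) ^ 2 := by
  classical
  obtain ⟨c, hc, r₀, hr₀, h⟩ := Pool.Agent.X37.RD.int_poly 2 (4 * E + 6) (by norm_num)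
  refine ⟨c, hc, r₀, hr₀, fun r hr b hb => ?_⟩
  have h2r : 2 ≤ r := hr₀.trans hr
  obtain ⟨κ, C, hκ, hC, h1⟩ := h r hr b hb
  obtain ⟨v, Cv, hv, hCv, hW⟩ := Pool.Agent.Y816.PD.WG_bounds {0, 2}
    (fun p hp => by
      rcases hp.eq_two_or_odd' with rfl | hodd
      · exact ⟨1, fun h hh => by simp only [mem_insert, mem_singleton] at hh; omega⟩
      · refine ⟨2, fun h hh => ?_⟩
        have h3 : 3 ≤ p := by have := hp.two_le; rcases hodd with ⟨k, hk⟩; omega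
        simp only [mem_insert, mem_singleton] at hh
        rcases hh with rfl | rfl
        · intro hd
          have := Nat.le_of_dvd (by norm_num) hd
          omega
        · intro hd
          have h4 : p ∣ 2 ^ 2 := hd
          have h5 := hp.dvd_of_dvd_pow h4
          have := Nat.le_of_dvd (by norm_num) h5
          omega) 2 (by decide) b hb
  obtain ⟨F, hF⟩ : ∃ F : ℕ, F = 4 * (2 * E + 3) := ⟨_, rfl⟩
  refine ⟨κ * v / 2 ^ F, C * Cv, by positivity, by positivity, ?_⟩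
  obtain ⟨K0, hK0⟩ := eventually_atTop.1 hW
  filter_upwards [h1, eventually_ge_atTop (3 * b ^ (K0 + 1 + 1)), eventually_ge_atTop b,
    eventually_ge_atTop 10] with
    y hy hyK hyb hy10 N x hNE hx1 hxy K hK A hA hprod
  obtain ⟨hKK, hb1, hb2⟩ := Pool.Agent.Y816.PD.log_three hb (K0 + 1 + 1) hyK hK
  have hb0 : 0 < b := by omega
  have hbK0 : 0 < b ^ K := by positivity
  have hN5 : 5 ≤ N := by omega
  -- the even number
  obtain ⟨M, hM⟩ : ∃ M, M = 2 * (N ^ 2 + N + 1) := ⟨_, rfl⟩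
  have hMe : Even M := ⟨N ^ 2 + N + 1, by omega⟩
  have hM0 : 0 < M := by omega
  have hM1 : M = (N ^ 2 + 1) + (N + 1) ^ 2 := by rw [hM]; ring
  have hsq : 4 * N + 2 ≤ (N + 1) ^ 2 := by nlinarith
  have hsub : ∀ k : ℕ, M - (N ^ 2 + 1 + k) = (N + 1) ^ 2 - k := fun k => by omega
  have hshift : ∀ k : ℕ, N ^ 2 + 1 + k = N ^ 2 + k + 1 := fun k => by omega
  have hKpos : (0 : ℝ) < K := by
    have : 0 < K := by omega
    exact_mod_cast this
  have hNA : Pool.Agent.Y816.PD.NA K A = ((choices K A : ℕ) : ℝ) := by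
    unfold Pool.Agent.Y816.PD.NA choices
    push_cast
    rfl
  have hNA0 : (0 : ℝ) ≤ (choices K A : ℝ) := Nat.cast_nonneg _
  have e1 : y ≤ (b ^ K) ^ 4 := by
    calc y ≤ 3 * b * b ^ K := hb2
      _ ≤ b ^ 2 * b * b ^ K := by
          apply Nat.mul_le_mul_right
          apply Nat.mul_le_mul_right
          nlinarith
      _ = b ^ (K + 3) := by ring
      _ ≤ b ^ (K * 4) := Nat.pow_le_pow_right hb0 (by omega)
      _ = (b ^ K) ^ 4 := pow_mul _ _ _
  have hMy : M ≤ y ^ (2 * E + 3) := by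
    have h5 : M ≤ 6 * N ^ 2 := by nlinarith
    have h6 : N ^ 2 ≤ y ^ (2 * E) := by
      calc N ^ 2 ≤ (y ^ E) ^ 2 := Nat.pow_le_pow_left hNE 2
        _ = y ^ (2 * E) := by rw [← pow_mul]; congr 1; ring
    calc M ≤ 6 * N ^ 2 := h5
      _ ≤ y ^ 3 * y ^ (2 * E) := by
          apply Nat.mul_le_mul _ h6
          nlinarith [Nat.pow_le_pow_left hy10 3]
      _ = y ^ (2 * E + 3) := by rw [← pow_add]; congr 1; omega
  have e2 : M ≤ (b ^ K) ^ F := by
    calc M ≤ y ^ (2 * E + 3) := hMy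
      _ ≤ ((b ^ K) ^ 4) ^ (2 * E + 3) := Nat.pow_le_pow_left e1 _
      _ = (b ^ K) ^ F := by rw [← pow_mul, hF]
  have hz2 : 2 ≤ b ^ K := by
    calc 2 ≤ b := hb
      _ ≤ b ^ K := Nat.le_self_pow (by omega) b
  obtain ⟨hs1, hs2⟩ := Pool.Agent.X37.RD.sing_bounds hM0 hz2 e2
  have hsing : Pool.Agent.X37.RD.sing M = S N := by
    unfold Pool.Agent.X37.RD.sing S
    have hodd : ¬ 2 ∣ N ^ 2 + N + 1 := by
      have h5 : Even (N ^ 2 + N) := by
        have : N ^ 2 + N = N * (N + 1) := by ring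
        rw [this]
        exact Nat.even_mul_succ_self N
      intro h6
      have h7 := h5.two_dvd
      omega
    have hset : M.primeFactors.filter (fun p => p ≠ 2) = (N ^ 2 + N + 1).primeFactors := by
      ext p
      rw [mem_filter, Nat.mem_primeFactors, Nat.mem_primeFactors, hM]
      constructor
      · rintro ⟨⟨h5, h6, -⟩, h7⟩
        rcases (h5.dvd_mul).1 h6 with h8 | h8
        · exact absurd ((Nat.prime_dvd_prime_iff_eq h5 Nat.prime_two).1 h8) h7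
        · exact ⟨h5, h8, by positivity⟩
      · rintro ⟨h5, h6, -⟩
        refine ⟨⟨h5, h6.mul_left 2, by positivity⟩, ?_⟩
        rintro rfl
        exact hodd h6
    rw [hset]
  rw [hsing] at hs1 hs2
  obtain ⟨hW1, hW2⟩ := hK0 K (by omega) 0
  -- the polynomial
  obtain ⟨P, hP⟩ : ∃ P : Polynomial ℤ, P = (Pool.Agent.X37.RD.GP M).comp
    (Polynomial.X + Polynomial.C ((N ^ 2 + 1 : ℕ) : ℤ)) := ⟨_, rfl⟩
  have hPe : ∀ k : ℕ, P.eval (k : ℤ) = (Pool.Agent.X37.RD.GP M).eval (((N ^ 2 + 1 + k : ℕ)) : ℤ) := by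
    intro k
    rw [hP, Polynomial.eval_comp, Polynomial.eval_add, Polynomial.eval_X, Polynomial.eval_C]
    congr 1
    push_cast
    ring
  have hPd : P.natDegree ≤ 2 := by
    rw [hP]
    refine Polynomial.natDegree_comp_le.trans ?_
    rw [Polynomial.natDegree_X_add_C, mul_one]
    exact Pool.Agent.X37.RD.GP_deg M
  have hPadm : ∀ p : ℕ, p.Prime → ∃ n : ℕ, ¬ (p : ℤ) ∣ P.eval (n : ℤ) := by
    intro p hp
    obtain ⟨n, hn⟩ := Pool.Agent.X37.RD.GP_adm hMe p hp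
    refine ⟨n + (p * (N ^ 2 + 1) - (N ^ 2 + 1)), fun hd => hn ?_⟩
    have h4 : N ^ 2 + 1 ≤ p * (N ^ 2 + 1) := Nat.le_mul_of_pos_left _ hp.pos
    have h5 : N ^ 2 + 1 + (n + (p * (N ^ 2 + 1) - (N ^ 2 + 1))) = n + p * (N ^ 2 + 1) := by omega
    rw [hPe, h5] at hd
    have h6 : (((n + p * (N ^ 2 + 1) : ℕ) : ℤ) - (n : ℤ)) ∣
        (Pool.Agent.X37.RD.GP M).eval ((n + p * (N ^ 2 + 1) : ℕ) : ℤ) -
          (Pool.Agent.X37.RD.GP M).eval (n : ℤ) := Polynomial.sub_dvd_eval_sub _ _ _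
    have h7 : (p : ℤ) ∣ ((n + p * (N ^ 2 + 1) : ℕ) : ℤ) - (n : ℤ) := by
      refine ⟨((N ^ 2 + 1 : ℕ) : ℤ), ?_⟩
      push_cast
      ring
    exact (dvd_iff_dvd_of_dvd_sub (h7.trans h6)).1 hd
  have hWG : Pool.Agent.Y816.PD.WG (fun j : ℕ => P.eval (j : ℤ)) (b ^ K) =
      Pool.Agent.Y816.PD.WG (Pool.Agent.Y816.PD.TP {0, 2} 0) (b ^ K) *
      ∏ p ∈ ((Icc 1 (b ^ K)).filter Nat.Prime).filter (fun p => p ∣ M ∧ p ≠ 2), Pool.Agent.X37.RD.gf p := by
    rw [← Pool.Agent.X37.RD.WG_gold hMe, ← Pool.Agent.X37.RD.WG_shift (Pool.Agent.X37.RD.GP M) (N ^ 2 + 1)]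
    congr 1
    funext j
    exact hPe j
  have hdvd : ∀ p : ℕ, p.Prime → ∀ k : ℕ, k ≤ (N + 1) ^ 2 →
      ((p : ℤ) ∣ P.eval (k : ℤ) ↔ p ∣ N ^ 2 + k + 1 ∨ p ∣ (N + 1) ^ 2 - k) := by
    intro p hp k hk
    rw [hPe, Pool.Agent.X37.RD.GP_dvd hp (by omega), hsub, hshift]
  have habs : ∀ k : ℕ, k ≤ (N + 1) ^ 2 → (P.eval (k : ℤ)).natAbs = (N ^ 2 + k + 1) * ((N + 1) ^ 2 - k) := by
    intro k hk
    rw [hPe, Pool.Agent.X37.RD.GP_natAbs (by omega), hsub, hshift]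
  obtain ⟨h2, h3⟩ := hy P hPd hPadm x (fun m hm => by
      rw [habs m (by omega)]
      calc (N ^ 2 + m + 1) * ((N + 1) ^ 2 - m) ≤ M * M := Nat.mul_le_mul (by omega) (by omega)
        _ ≤ y ^ (2 * E + 3) * y ^ (2 * E + 3) := Nat.mul_le_mul hMy hMy
        _ = y ^ (4 * E + 6) := by rw [← pow_add]; congr 1; ring) K hK A hA (by rw [hNA]; exact hprod)
  rw [hNA, hWG] at h2 h3
  obtain ⟨T, hT⟩ : ∃ T, T = ∏ p ∈ ((Icc 1 (b ^ K)).filter Nat.Prime).filter (fun p => p ∣ M ∧ p ≠ 2),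
    Pool.Agent.X37.RD.gf p := ⟨_, rfl⟩
  obtain ⟨W, hWe⟩ : ∃ W, W = Pool.Agent.Y816.PD.WG (Pool.Agent.Y816.PD.TP {0, 2} 0) (b ^ K) := ⟨_, rfl⟩
  rw [← hT] at hs1 hs2 h2 h3
  rw [← hWe] at hW1 hW2 h2 h3
  have hT0 : 0 ≤ T := by
    rw [hT]
    apply prod_nonneg
    intro p hp
    rw [mem_filter, mem_filter] at hp
    have h4 : 3 ≤ p := by
      have := hp.1.2.two_le
      have := hp.2.2
      omega
    exact zero_le_one.trans (Pool.Agent.X37.RD.gf_ge h4)
  have hW0 : 0 ≤ W := le_trans (by positivity) hW1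
  have hfin : ∀ Z : Set ℕ, (∀ m ∈ Z, x < m ∧ m < x + y) → Z.Finite := by
    intro Z hZ
    apply (finite_toSet (Ioo x (x + y))).subset
    intro m hm
    rw [mem_coe, mem_Ioo]
    exact hZ m hm
  constructor
  · rintro ⟨d, hd, hd1, hd2⟩
    have hdb : d < b := mem_range.1 (hA 0 (by omega) hd)
    have hdN : d ≤ (N + 1) ^ 2 := by omega
    have h4 : κ * (choices K A : ℝ) * (W * T) ≤ count b K A {k | (x < k ∧ k < x + y) ∧
            AlmostPrime r (b ^ K) (N ^ 2 + k + 1) ∧ AlmostPrime r (b ^ K) ((N + 1) ^ 2 - k)} := by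
      refine (h2 ⟨d, hd, ?_⟩).trans (Nat.cast_le.2 ?_)
      · rw [habs d hdN]
        exact Nat.Coprime.mul_left hd1 hd2
      · unfold Pool.Agent.Y816.PD.DC count
        apply Set.ncard_le_ncard
        · rintro m ⟨⟨⟨hm1, hm2⟩, hm3, hm4⟩, hm5⟩
          have hmN : m ≤ (N + 1) ^ 2 := by omega
          rw [habs m hmN] at hm4
          have h5 := (Nat.perm_primeFactorsList_mul (a := N ^ 2 + m + 1) (b := (N + 1) ^ 2 - m)
            (by omega) (by omega)).length_eq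
          rw [List.length_append] at h5
          refine ⟨⟨⟨hm1, hm2⟩, ⟨fun p hp hpd => hm3 p hp
            ((hdvd p hp m hmN).2 (Or.inl hpd)), by omega⟩, fun p hp hpd => hm3 p hp
            ((hdvd p hp m hmN).2 (Or.inr hpd)), by omega⟩, hm5⟩
        · exact hfin _ fun m hm => hm.1.1
    refine le_trans ?_ h4
    have h5 : v / (K : ℝ) ^ 2 * (S N / 2 ^ F) ≤ W * T := by
      apply mul_le_mul hW1 _ _ hW0
      · rw [div_le_iff₀ (by positivity)]
        linarith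
      · exact div_nonneg (hT0.trans hs1) (by positivity)
    calc κ * v / 2 ^ F * (choices K A : ℝ) * S N / (K : ℝ) ^ 2 =
        κ * (choices K A : ℝ) * (v / (K : ℝ) ^ 2 * (S N / 2 ^ F)) := by
          field_simp
      _ ≤ κ * (choices K A : ℝ) * (W * T) := mul_le_mul_of_nonneg_left h5 (by positivity)
  · have h4 : (count b K A {k | (x < k ∧ k < x + y) ∧ (N ^ 2 + k + 1).Prime ∧ ((N + 1) ^ 2 - k).Prime} : ℝ) ≤
        C * (choices K A : ℝ) * (W * T) := by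
      refine le_trans (Nat.cast_le.2 ?_) h3
      unfold Pool.Agent.Y816.PD.DC count
      apply Set.ncard_le_ncard
      · rintro m ⟨⟨⟨hm1, hm2⟩, hm3, hm4⟩, hm5⟩
        have hmN : m ≤ (N + 1) ^ 2 := by omega
        have hmod : m % b ^ K ≤ m := Nat.mod_le _ _
        refine ⟨⟨⟨hm1, hm2⟩, fun p hp hpd => ?_⟩, hm5⟩
        rcases (hdvd p hp m hmN).1 hpd with h6 | h6
        · rw [(Nat.prime_dvd_prime_iff_eq hp hm3).1 h6]
          have h7 : N ^ 2 + m + 1 ≤ (N ^ 2 + m + 1) ^ r := Nat.le_self_pow (by omega) _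
          omega
        · rw [(Nat.prime_dvd_prime_iff_eq hp hm4).1 h6]
          have h7 : (N + 1) ^ 2 - m ≤ ((N + 1) ^ 2 - m) ^ r := Nat.le_self_pow (by omega) _
          omega
      · exact hfin _ fun m hm => hm.1.1
    refine h4.trans ?_
    calc C * (choices K A : ℝ) * (W * T) ≤ C * (choices K A : ℝ) * (Cv / (K : ℝ) ^ 2 * S N) := by
          apply mul_le_mul_of_nonneg_left _ (by positivity)
          exact mul_le_mul hW2 hs1 hT0 (by positivity)
      _ = C * Cv * choices K A * S N / (K : ℝ) ^ 2 := by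
          field_simp

end Pool.Agent.Results.MP_e94e4b_nt.RestrictedDigits
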