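import Mathlib
import Pool.Agent.X58.IV.Win

set_option autoImplicit false

/-!
# Patterns of almost primes `N² + k + 1`, `(N + 1)² - k` with fixed sum between consecutive squares

Let `S` be an arbitrary admissible set of at most `m₀` integers (for instance `S = {0}`, the two numbers of the
problem) and `(A, A + X]` an arbitrary window of length `X ≥ N ^ θ` such that all `k = n + s`, `n` in the window,
`s ∈ S`, satisfy `2 ≤ k ≤ 2 N`.  The number of the `n` of the window for which ALL the numbers `N² + k + 1` and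
`(N + 1)² - k`, `k = n + s`, `s ∈ S`, are products of at most `2 t` primes, all of them `> (2 N) ^ (1 / t)`, has
the conjectured order of magnitude of the number of the `n` for which they are prime, and every subset of positive
relative density contains arithmetic progressions of any length `m` with differences `≤ (log 2N) ^ B`.
-/

namespace Pool.Agent.Results.MP_e94e4b_nt.SymmetricPatterns

open Finset Pool.Agent.X58.IV

/-- the first number of the pair, `N² + k + 1` -/
def first (N : ℕ) (k : ℤ) : ℤ := (N : ℤ) ^ 2 + k + 1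

/-- the second number of the pair, `(N + 1)² - k` -/
def second (N : ℕ) (k : ℤ) : ℤ := ((N : ℤ) + 1) ^ 2 - k

/-- the product of the numbers of the pairs with `k = n + s`, `s ∈ S` -/
def P (N : ℕ) (S : Finset ℤ) (n : ℤ) : ℤ := ∏ s ∈ S, (first N (n + s) * second N (n + s))

/-- no prime divides all the products -/
def Admissible (N : ℕ) (S : Finset ℤ) : Prop :=
  ∀ p : ℕ, p.Prime → ∃ n : ℕ, ¬ (p : ℤ) ∣ P N S n

/-- the number of the classes `n` modulo `p` with `p ∣ P N S n` -/
noncomputable def omega (N : ℕ) (S : Finset ℤ) (p : ℕ) : ℕ :=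
  ((range p).filter (fun n : ℕ => (p : ℤ) ∣ P N S n)).card

/-- the product of the local densities `1 - omega N S p / p` over the primes `p ≤ Y` -/
noncomputable def V (N : ℕ) (S : Finset ℤ) (Y : ℕ) : ℝ :=
  ∏ p ∈ (Icc 1 Y).filter Nat.Prime, (1 - (omega N S p : ℝ) / p)

open Classical in
/-- the `n` of `(A, A + X]` for which all numbers `N² + k + 1` and `(N + 1)² - k`, `k = n + s`, `s ∈ S`, are
products of at most `2 t` primes, all of them `> (2 N) ^ (1 / t)` -/
noncomputable def Good (S : Finset ℤ) (t N A X : ℕ) : Finset ℕ :=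
  (Ioc A (A + X)).filter (fun n : ℕ => ∀ s ∈ S,
    Almost (2 * t) (((2 * N : ℕ) : ℝ) ^ (1 / (t : ℝ))) (first N ((n : ℤ) + s)) ∧
    Almost (2 * t) (((2 * N : ℕ) : ℝ) ^ (1 / (t : ℝ))) (second N ((n : ℤ) + s)))

/-- the linear forms -/
def FF (N : ℕ) (S : Finset ℤ) : Finset (ℤ × ℤ) :=
  S.image (fun s => ((1 : ℤ), (N : ℤ) ^ 2 + s + 1)) ∪ S.image (fun s => ((-1 : ℤ), ((N : ℤ) + 1) ^ 2 - s))

lemma e1 (N : ℕ) (n s : ℤ) : 1 * n + ((N : ℤ) ^ 2 + s + 1) = first N (n + s) := by
  unfold first; ring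

lemma e2 (N : ℕ) (n s : ℤ) : -1 * n + (((N : ℤ) + 1) ^ 2 - s) = second N (n + s) := by
  unfold second; ring

lemma dvd_iff (N : ℕ) (S : Finset ℤ) {p : ℕ} (hp : p.Prime) (n : ℕ) :
    (∃ L ∈ FF N S, (p : ℤ) ∣ L.1 * (n : ℤ) + L.2) ↔ (p : ℤ) ∣ P N S n := by
  have hp' : Prime (p : ℤ) := Nat.prime_iff_prime_int.1 hp
  unfold P
  rw [Prime.dvd_finsetProd_iff hp']
  constructor
  · rintro ⟨L, hL, hd⟩
    rcases mem_union.1 hL with h | h
    · obtain ⟨s, hs, rfl⟩ := mem_image.1 h
      refine ⟨s, hs, ?_⟩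
      rw [e1] at hd
      exact hd.mul_right _
    · obtain ⟨s, hs, rfl⟩ := mem_image.1 h
      refine ⟨s, hs, ?_⟩
      rw [e2] at hd
      exact hd.mul_left _
  · rintro ⟨s, hs, hd⟩
    rcases hp'.dvd_or_dvd hd with h | h
    · refine ⟨_, mem_union_left _ (mem_image_of_mem _ hs), ?_⟩
      rw [e1]; exact h
    · refine ⟨_, mem_union_right _ (mem_image_of_mem _ hs), ?_⟩
      rw [e2]; exact h

/-- the pair of the problem itself is admissible -/
lemma adm_zero (N : ℕ) : Admissible N {0} := by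
  intro p hp
  by_contra hcon
  push Not at hcon
  simp only [P, prod_singleton, add_zero] at hcon
  have hp' : Prime (p : ℤ) := Nat.prime_iff_prime_int.1 hp
  rcases hp.eq_two_or_odd' with h2 | hodd
  · subst h2
    have h := hcon N
    rcases hp'.dvd_or_dvd h with h3 | h3
    · unfold first at h3
      have h4 : ((2 : ℕ) : ℤ) ∣ 1 := by
        have h5 : ((2 : ℕ) : ℤ) ∣ (N : ℤ) ^ 2 + N := by
          have h6 := (Int.even_mul_succ_self (N : ℤ)).two_dvd
          have h8 : (N : ℤ) ^ 2 + N = N * (N + 1) := by ring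
          rw [h8]
          exact_mod_cast h6
        have := (Int.dvd_add_right h5).1 (by
          have : (N : ℤ) ^ 2 + N + 1 = (N : ℤ) ^ 2 + N + 1 := rfl
          exact h3)
        exact this
      norm_num at h4
    · unfold second at h3
      have h4 : ((2 : ℕ) : ℤ) ∣ 1 := by
        have h5 : ((2 : ℕ) : ℤ) ∣ (N : ℤ) ^ 2 + N := by
          have h6 := (Int.even_mul_succ_self (N : ℤ)).two_dvd
          have h8 : (N : ℤ) ^ 2 + N = N * (N + 1) := by ring
          rw [h8]
          exact_mod_cast h6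
        have h7 : ((N : ℤ) + 1) ^ 2 - N = ((N : ℤ) ^ 2 + N) + 1 := by ring
        rw [h7] at h3
        exact (Int.dvd_add_right h5).1 h3
      norm_num at h4
  · have h3 : 3 ≤ p := by
      have := hp.two_le
      rcases hodd with ⟨j, hj⟩
      omega
    -- three consecutive values
    have key : ∀ n : ℕ, (p : ℤ) ∣ first N n ∨ (p : ℤ) ∣ second N n := fun n => hp'.dvd_or_dvd (hcon n)
    have k0 := key 0
    have k1 := key 1
    have k2 := key 2
    unfold first second at k0 k1 k2
    push_cast at k0 k1 k2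
    have no1 : ¬ (p : ℤ) ∣ 1 := by
      intro h
      have := Int.le_of_dvd one_pos h
      omega
    have no2 : ¬ (p : ℤ) ∣ 2 := by
      intro h
      have := Int.le_of_dvd two_pos h
      omega
    have sub : ∀ a b : ℤ, (p : ℤ) ∣ a → (p : ℤ) ∣ b → (p : ℤ) ∣ a - b := fun a b h1 h2 => dvd_sub h1 h2
    rcases k0 with a | a <;> rcases k1 with b | b <;> rcases k2 with c | c
    · exact no1 (by have := sub _ _ b a; ring_nf at this; exact this)
    · exact no1 (by have := sub _ _ b a; ring_nf at this; exact this)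
    · exact no2 (by have := sub _ _ c a; ring_nf at this; exact this)
    · exact no1 (by have := sub _ _ b c; ring_nf at this; exact this)
    · exact no1 (by have := sub _ _ c b; ring_nf at this; exact this)
    · exact no2 (by have := sub _ _ a c; ring_nf at this; exact this)
    · exact no1 (by have := sub _ _ a b; ring_nf at this; exact this)
    · exact no1 (by have := sub _ _ a b; ring_nf at this; exact this)

theorem result : (∀ N : ℕ, Admissible N {0}) ∧
    ∀ (k : ℕ) (θ : ℝ), 0 < θ → ∃ (t₀ : ℕ) (c : ℝ), 1 ≤ t₀ ∧ 0 < c ∧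
    ∀ t : ℕ, t₀ ≤ t → ∃ C : ℝ, 0 < C ∧ ∀ (m : ℕ) (ρ : ℝ), 0 < ρ → ∃ B N₀ : ℕ, ∀ N A X : ℕ, N₀ ≤ N →
      (N : ℝ) ^ θ ≤ X → ∀ S : Finset ℤ, S.Nonempty → S.card ≤ k → Admissible N S →
      (∀ s ∈ S, 1 ≤ A + s ∧ (A : ℤ) + X + s ≤ 2 * N) →
      c / Real.log (2 * N) ^ (2 * k) ≤ V N S (2 * N) ∧
      c * X * V N S (2 * N) ≤ ((Good S t N A X).card : ℝ) ∧
      ((Good S t N A X).card : ℝ) ≤ C * X * V N S (2 * N) ∧
      ∀ U ⊆ Good S t N A X, ρ * ((Good S t N A X).card : ℝ) ≤ U.card →
        ∃ a d : ℕ, 1 ≤ d ∧ (d : ℝ) ≤ Real.log (2 * N) ^ B ∧ ∀ j < m, a + j * d ∈ U := by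
  classical
  refine ⟨adm_zero, fun k θ hθ => ?_⟩
  obtain ⟨t₀, c, ht₀, hc, hV, h⟩ := window (2 * k) 2 (θ / 2) (by positivity)
  refine ⟨t₀, c, ht₀, hc, fun t ht => ?_⟩
  obtain ⟨C, hC, h2⟩ := h t ht
  refine ⟨C, hC, fun m ρ hρ => ?_⟩
  obtain ⟨B, N₀, h3⟩ := h2 m ρ hρ
  refine ⟨B, max N₀ 8, fun N A X hN hX S hS0 hS hadm hval => ?_⟩
  have hN8 : 8 ≤ N := (le_max_right _ _).trans hN
  have hNN : N₀ ≤ 2 * N := by have := (le_max_left N₀ 8).trans hN; omega
  have hNp : (0 : ℝ) < N := by exact_mod_cast (by omega : 0 < N)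
  have hXN : X ≤ 2 * N := by
    obtain ⟨s, hs⟩ := hS0
    have := hval s hs
    omega
  have hX' : ((2 * N : ℕ) : ℝ) ^ (θ / 2) ≤ X := by
    refine le_trans ?_ hX
    calc ((2 * N : ℕ) : ℝ) ^ (θ / 2) ≤ ((N : ℝ) ^ (2 : ℝ)) ^ (θ / 2) := by
          apply Real.rpow_le_rpow (by positivity) _ (by positivity)
          rw [show (2 : ℝ) = ((2 : ℕ) : ℝ) by norm_num, Real.rpow_natCast]
          have : (8 : ℝ) ≤ N := by exact_mod_cast hN8
          push_cast
          nlinarith
      _ = (N : ℝ) ^ θ := by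
          rw [← Real.rpow_mul hNp.le]
          congr 1
          ring
  have hcardF : (FF N S).card ≤ 2 * k := by
    refine (card_union_le _ _).trans ?_
    have h4 := card_image_le (s := S) (f := fun s => ((1 : ℤ), (N : ℤ) ^ 2 + s + 1))
    have h5 := card_image_le (s := S) (f := fun s => ((-1 : ℤ), ((N : ℤ) + 1) ^ 2 - s))
    omega
  have hcop : ∀ L ∈ FF N S, IsCoprime L.1 L.2 := by
    intro L hL
    rcases mem_union.1 hL with h | h
    · obtain ⟨s, _, rfl⟩ := mem_image.1 h
      exact isCoprime_one_left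
    · obtain ⟨s, _, rfl⟩ := mem_image.1 h
      exact isCoprime_one_left.neg_left
  have hloc : Locally (FF N S) := by
    intro p hp
    obtain ⟨n, hn⟩ := hadm p hp
    exact ⟨n, fun L hL hd => hn ((dvd_iff N S hp n).1 ⟨L, hL, hd⟩)⟩
  have hvol : Vol (FF N S) (2 * N) = V N S (2 * N) := by
    unfold Vol V
    have : (Icc 1 (2 * N) : Finset ℕ) = Ioc 0 (2 * N) := by
      ext n; rw [mem_Icc, mem_Ioc]; omega
    rw [this]
    apply prod_congr rfl
    intro p hp
    have hpp := (mem_filter.1 hp).2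
    have : om (FF N S) p = omega N S p := by
      unfold om omega ZF
      congr 1
      apply filter_congr
      intro n _
      exact dvd_iff N S hpp n
    rw [this]
  have hwin : Win (FF N S) 2 t (2 * N) A X = Good S t N A X := by
    unfold Win Good
    apply filter_congr
    intro n _
    constructor
    · intro h s hs
      have h6 := h _ (mem_union_left _ (mem_image_of_mem _ hs))
      have h7 := h _ (mem_union_right _ (mem_image_of_mem _ hs))
      simp only at h6 h7
      rw [e1] at h6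
      rw [e2] at h7
      exact ⟨h6, h7⟩
    · intro h L hL
      rcases mem_union.1 hL with h8 | h8
      · obtain ⟨s, hs, rfl⟩ := mem_image.1 h8
        simp only
        rw [e1]
        exact (h s hs).1
      · obtain ⟨s, hs, rfl⟩ := mem_image.1 h8
        simp only
        rw [e2]
        exact (h s hs).2
  have hNz : (8 : ℤ) ≤ N := by exact_mod_cast hN8
  have hb := hV (FF N S) hcardF hcop hloc (2 * N) (by omega)
  have hm := h3 (2 * N) A X hNN hX' hXN (FF N S) hcardF hcop hloc (by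
    intro L hL n hn1 hn2
    have hn1' : (A : ℤ) < n := by exact_mod_cast hn1
    have hn2' : (n : ℤ) ≤ A + X := by exact_mod_cast hn2
    have hsq : (8 : ℤ) * N ≤ (N : ℤ) ^ 2 := by nlinarith
    have hE : ((2 * N : ℕ) : ℤ) ^ 2 = 4 * (N : ℤ) ^ 2 := by push_cast; ring
    rw [hE]
    rcases mem_union.1 hL with h8 | h8
    · obtain ⟨s, hs, rfl⟩ := mem_image.1 h8
      obtain ⟨h9, h10⟩ := hval s hs
      simp only
      constructor <;> linarith
    · obtain ⟨s, hs, rfl⟩ := mem_image.1 h8
      obtain ⟨h9, h10⟩ := hval s hs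
      have h11 : ((N : ℤ) + 1) ^ 2 = (N : ℤ) ^ 2 + 2 * N + 1 := by ring
      simp only
      rw [h11]
      constructor <;> linarith)
  rw [hvol] at hb hm
  rw [hwin] at hm
  push_cast at hb
  refine ⟨hb, hm.1, hm.2.1, fun U hU hUc => ?_⟩
  obtain ⟨a, d, h1, h2, h3⟩ := hm.2.2 U hU hUc
  push_cast at h2
  exact ⟨a, d, h1, h2, h3⟩

end Pool.Agent.Results.MP_e94e4b_nt.SymmetricPatterns
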